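import Pool.Agent.helper87.TR.Spec

set_option autoImplicit false

namespace Pool.Agent.helper87.TR

open Polynomial Finset Module FP97
open Pool.Agent.helper97.FP

theorem PH_gam_le {h : ℕ} (n : Fin h → ℕ) (S : Finset (Fin h)) (e i j : ℕ) (hn : ∀ k, 1 ≤ n k)
    (hj : 3 ≤ j) (h1 : 2 * dee n S e ≤ ell n)
    (h2 : ell n - 2 * dee n S e ≤ kap n - sig n S) (h3 : ∑ k, min 2 (n k) ≤ i + 1) :
    gam n S e j ≤ i + 1 := by
  have hs : sig n S = ∑ k, (if k ∈ S ∧ n k = 2 then 1 else 0) := by
    unfold sig
    rw [← Finset.card_filter]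
    congr 1
    ext k
    simp
  have hk : kap n = ∑ k, (if n k = 2 then 1 else 0) := by
    unfold kap
    rw [Finset.card_filter]
  have hl : ell n = ∑ k, (if n k = 1 then 1 else 0) := by
    unfold ell
    rw [Finset.card_filter]
  have hd : dee n S e = e + ∑ k, (if k ∉ S ∧ n k = 1 then 1 else 0) := by
    unfold dee
    rw [Finset.card_filter]
  have hks : kap n = sig n S + ∑ k, (if k ∉ S ∧ n k = 2 then 1 else 0) := by
    rw [hk, hs, ← Finset.sum_add_distrib]
    apply Finset.sum_congr rfl
    intro k _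
    by_cases h1 : k ∈ S <;> by_cases h2 : n k = 2 <;> simp [h1, h2]
  have hpt : (∑ k, if k ∈ S then 2 else if 2 * n k ≤ j then 0 else if n k ≤ j then 1 else 2) +
      2 * (∑ k, (if k ∉ S ∧ n k = 1 then 1 else 0)) +
      ∑ k, (if k ∉ S ∧ n k = 2 then 1 else 0) ≤
      (∑ k, min 2 (n k)) + ∑ k, (if n k = 1 then 1 else 0) := by
    rw [Finset.mul_sum, ← Finset.sum_add_distrib, ← Finset.sum_add_distrib,
      ← Finset.sum_add_distrib]
    apply Finset.sum_le_sum
    intro k _
    have := hn k
    by_cases h1 : k ∈ S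
    · simp only [h1, if_true, not_true_eq_false, false_and, if_false]
      split_ifs <;> omega
    · simp only [h1, if_false, not_false_eq_true, true_and]
      split_ifs <;> omega
  have he : 2 * e ≤ e * j := by nlinarith
  unfold gam
  omega

/-- `Phi` does not depend on the double columns in `S`. -/
theorem PH : PH_stmt := by
  intro h n S S' e i j hn hSS hd h1 h2 hj2 hij
  have hdee : dee n S' e = dee n S e := by
    unfold dee
    congr 2
    ext k
    simp only [Finset.mem_filter, Finset.mem_univ, true_and]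
    constructor
    · rintro ⟨a1, a2⟩
      exact ⟨fun hk => a1 ((hSS k (by omega)).mp hk), a2⟩
    · rintro ⟨a1, a2⟩
      exact ⟨fun hk => a1 ((hSS k (by omega)).mpr hk), a2⟩
  have hgam : ∀ j ≤ 1, gam n S e j = gam n S' e j := by
    intro j hj
    unfold gam
    congr 1
    apply Finset.sum_congr rfl
    intro k _
    have := hn k
    by_cases hk2 : n k = 2
    · rw [hk2]
      split_ifs <;> omega
    · have := hSS k hk2
      simp only [this]
  by_cases hj1 : j ≤ 1
  · unfold Phi
    rw [hgam j hj1, hgam 1 le_rfl]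
  · have hj3 : 3 ≤ j := by omega
    have hs := hij.resolve_left hj1
    have e1 := PH_gam_le n S e i j hn hj3 hd h1 hs
    have e2 := PH_gam_le n S' e i j hn hj3 (by rw [hdee]; exact hd) (by rw [hdee]; exact h2) hs
    unfold Phi
    have hj0 : j ≠ 1 := by omega
    rw [if_neg hj0, if_neg hj0]
    omega

end Pool.Agent.helper87.TR
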